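import Mathlib
import Pool.Agent.Helper449.RC.Exists
import Pool.Agent.Helper449.RC.ProdJ

/-!
# A rationally connected symplectic manifold whose invariants with two point insertions vanish

On the symplectic manifold `X = P¹ × P¹ × T²`, with the product symplectic form `Ω`, there is an
`Ω`-compatible almost complex structure `J` for which any two points of `X` lie on a common
connected rational `J`-holomorphic curve. So `(X, Ω)` is rationally connected. The product
complex structure `J'` is also `Ω`-compatible, and a connected rational `J'`-holomorphic curve lies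
over one point of `T²`. So most pairs of points are not joined by such a curve. By the persistence
of the curves which contribute to a non-zero Gromov-Witten invariant, all genus `0` Gromov-Witten
invariants of `(X, Ω)` with two point insertions vanish.
-/

open scoped Manifold ContDiff Topology
open Metric Set Bundle
open Pool.Agent.Helper206.Cover (R3 P1 cross EndoField)
open Pool.Agent.Helper206.Rat (SymplecticForm AlmostComplex IsCompatible IsHolomorphic
  RationalCurve IsRationallyConnected)
open Pool.Agent.Helper449.RC

noncomputable section

namespace Pool.Agent.Results.MP_9dc49b_gt.TwoPointInvariantsVanish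

section Statement

variable
  {E' : Type*} [NormedAddCommGroup E'] [NormedSpace ℝ E'] {H' : Type*} [TopologicalSpace H']
  {I' : ModelWithCorners ℝ E' H'} {S : Type*} [TopologicalSpace S] [ChartedSpace H' S]

/-- `j` is the rotation by the angle `π / 2` of the tangent planes of the sphere `ι : S → R3`
about the outward normal: `dι (j w) = ι z × dι w` for `w` tangent to `S` at `z`. For the unit
sphere, with `ι` the inclusion in `R3`, this is the complex structure of the Riemann sphere. -/
def IsRotation (ι : S → R3) (j : EndoField I' S) : Prop :=
  ∀ (z : S) (w : TangentSpace I' z), mvfderiv I' ι z (j z w) = cross (ι z) (mvfderiv I' ι z w)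

section GW

variable {E : Type*} [NormedAddCommGroup E] [NormedSpace ℝ E] {H : Type*} [TopologicalSpace H]
  {I : ModelWithCorners ℝ E H} {X : Type*} [TopologicalSpace X] [ChartedSpace H X]

/-- `J` is tamed by `Ω`: `Ω (v, J v) > 0` for `v ≠ 0`. -/
def IsTame (Ω : SymplecticForm I X) (J : AlmostComplex I X) : Prop :=
  ∀ x v, v ≠ 0 → 0 < Ω.form x v (J.J x v)

/-- Any two points of `X` lie on a common connected rational `J`-holomorphic curve. -/
def JoinsAllPairs (j : EndoField I' S) (J : AlmostComplex I X) : Prop :=
  ∀ x y : X, ∃ C : RationalCurve j J, x ∈ C.image ∧ y ∈ C.image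

/-- The property of the genus `0` Gromov-Witten invariants with two point insertions of `(X, Ω)`
which the problem file lists as known, for a family `gw i`, `i : ι`, of numbers: if one of them is
non-zero, then for every `Ω`-tame `J` any two points of `X` lie on a common connected rational
`J`-holomorphic curve. The index `i` stands for `(A, k, α₃, …, α_k)`. -/
def PersistsForTameJ {ι : Type} (j : EndoField I' S) (Ω : SymplecticForm I X) (gw : ι → ℚ) :
    Prop :=
  ∀ i, gw i ≠ 0 → ∀ J : AlmostComplex I X, IsTame Ω J → JoinsAllPairs j J

end GW

/-- There are a compact connected symplectic manifold `(X, Ω)` without boundary, of dimension `6`,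
and two `Ω`-compatible almost complex structures `J` and `J'` on `X` such that any two points of
`X` lie on a common connected rational `J`-holomorphic curve (so `(X, Ω)` is rationally
connected), but for each point `x` of `X` there is a point `y` such that `x` and `y` do not lie on
a common connected rational `J'`-holomorphic curve. And every family `gw` of numbers which has the
property of the genus `0` Gromov-Witten invariants of `(X, Ω)` with two point insertions that is
quoted above is zero. -/
def HasCounterexample (j : EndoField I' S) : Prop :=
    ∃ (E : Type) (_ : NormedAddCommGroup E) (_ : NormedSpace ℝ E) (_ : FiniteDimensional ℝ E)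
      (H : Type) (_ : TopologicalSpace H) (I : ModelWithCorners ℝ E H) (_ : I.Boundaryless)
      (X : Type) (_ : TopologicalSpace X) (_ : ChartedSpace H X) (_ : IsManifold I ∞ X)
      (_ : CompactSpace X) (_ : T2Space X) (_ : SecondCountableTopology X) (_ : ConnectedSpace X)
      (Ω : SymplecticForm I X) (J J' : AlmostComplex I X),
      Module.finrank ℝ E = 6 ∧
      IsRationallyConnected j Ω ∧
      IsCompatible Ω J ∧ JoinsAllPairs j J ∧
      IsCompatible Ω J' ∧
      (∀ x : X, ∃ y : X, ¬ ∃ C : RationalCurve j J', x ∈ C.image ∧ y ∈ C.image) ∧
      ∀ (ι : Type) (gw : ι → ℚ), PersistsForTameJ j Ω gw → ∀ i, gw i = 0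

end Statement

/-- The answer to the second question is negative. Here `P¹` is the unit sphere `P1` of `R3`, with
the smooth structure of Mathlib and the complex structure `j w = z × w`. -/
theorem result :
    ∃ j : EndoField (𝓡 2) P1, IsRotation (fun z : P1 => (z : R3)) j ∧ HasCounterexample j := by
  have := pathConnectedSpace_P1
  have : SecondCountableTopology (ModelProd (EuclideanSpace ℝ (Fin 2))
      (ModelProd (EuclideanSpace ℝ (Fin 2)) (EuclideanSpace ℝ (Fin 2)))) :=
    inferInstanceAs (SecondCountableTopology (EuclideanSpace ℝ (Fin 2) ×
      (EuclideanSpace ℝ (Fin 2) × EuclideanSpace ℝ (Fin 2))))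
  refine ⟨Pool.Agent.Helper206.Cover.jP1, Pool.Agent.Helper206.Cover.dInc_jP1, E6, inferInstance,
    inferInstance, inferInstance,
    ModelProd (EuclideanSpace ℝ (Fin 2))
      (ModelProd (EuclideanSpace ℝ (Fin 2)) (EuclideanSpace ℝ (Fin 2))), inferInstance, I6,
    inferInstance, X6, inferInstance, inferInstance, inferInstance,
    inferInstance, inferInstance, ?_, inferInstance, Om6, K6, K0, ?_,
    ⟨K6, isCompatible_K6, ?_⟩, isCompatible_K6, ?_, isCompatible_K0, exists_not_joined, ?_⟩
  · exact ChartedSpace.secondCountable_of_sigmaCompact
      (ModelProd (EuclideanSpace ℝ (Fin 2))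
        (ModelProd (EuclideanSpace ℝ (Fin 2)) (EuclideanSpace ℝ (Fin 2)))) X6
  · simp [Module.finrank_prod]
  · intro x y
    obtain ⟨C, hx, hy, _⟩ := exists_curve x y
    exact ⟨C, hx, hy⟩
  · intro x y
    obtain ⟨C, hx, hy, _⟩ := exists_curve x y
    exact ⟨C, hx, hy⟩
  · intro ι gw h i
    by_contra hne
    obtain ⟨y, hy⟩ := exists_not_joined (SP, (SP, toT2 0))
    exact hy (h i hne K0 isCompatible_K0.2 _ _)

end Pool.Agent.Results.MP_9dc49b_gt.TwoPointInvariantsVanish
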